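import Mathlib
import Pool.Agent.TCH.Asm

set_option autoImplicit false

namespace Pool.Agent.Results.MP_04e9b2_nt.ChenAndFewFactors

open Pool.Agent.TCH

/-- For every `K > 4 / log 3 = 3.64...` every sufficiently large `n` has at least `c n / log n`
decompositions `n = k + m` such that `p_k + 2` has at most two prime factors, `p_{p_m} + 2` has at
most `K log log n` prime factors (both counted with multiplicity) and the prime following `p_{p_m}`
is at most `p_{p_m} + C (log n)^3`. -/
theorem result (K : ℝ) (hK : 4 / Real.log 3 < K) : ∃ c C : ℝ, 0 < c ∧ 0 < C ∧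
    ∀ᶠ n : ℕ in Filter.atTop, ∃ S : Finset ℕ, c * n / Real.log n ≤ S.card ∧
      ∀ k ∈ S, ∃ m : ℕ, 0 < k ∧ 0 < m ∧ k + m = n ∧
        ArithmeticFunction.cardFactors (Nat.nth Nat.Prime (k - 1) + 2) ≤ 2 ∧
        (ArithmeticFunction.cardFactors
          (Nat.nth Nat.Prime (Nat.nth Nat.Prime (m - 1) - 1) + 2) : ℝ) ≤
            K * Real.log (Real.log n) ∧
        (Nat.nth Nat.Prime (Nat.nth Nat.Prime (m - 1)) : ℝ) ≤
          Nat.nth Nat.Prime (Nat.nth Nat.Prime (m - 1) - 1) + C * Real.log n ^ 3 := by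
  obtain ⟨c, C, hc, hC, h⟩ := t1 K hK
  refine ⟨c, C, hc, hC, h.mono fun n hn => ⟨good K C n, hn, fun k hk => ?_⟩⟩
  unfold good at hk
  rw [Finset.mem_filter, Finset.mem_Icc] at hk
  exact ⟨n - k, by omega, by omega, by omega, hk.2⟩

end Pool.Agent.Results.MP_04e9b2_nt.ChenAndFewFactors
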