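import Mathlib
import Pool.Agent.CSH.AllS

set_option autoImplicit false

/-!
# MP_04e9b2_nt: the question with the shift `2` replaced by one common shift `h` in `(s, s + n^(3/4+ε)]`

For every large `n`, all `n^(3/4+ε) ≤ H ≤ Z ≤ n log n`, every `s ≤ n log n` and every not too small set
`K` of indices `k ≤ c Z / log n`, many shifts `s < h ≤ s + H` are such that `n = k + m` with `p_k + h` and
`p_{p_m} + h` both prime for at least `c |K| / (log n)^2` of the `k ∈ K`, the expected order.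
-/

namespace Pool.Agent.Results.MP_04e9b2_nt.CommonShift

open Finset Pool.Agent.TSH

open Classical in
theorem result (C : ℕ) (ε : ℝ) (hε : 0 < ε) : ∃ c : ℝ, 0 < c ∧ ∃ n₀ : ℕ, ∀ n H Z s : ℕ, n₀ ≤ n →
    (n : ℝ) ^ (3 / 4 + ε) ≤ H → H ≤ Z → (Z : ℝ) ≤ n * Real.log n → (s : ℝ) ≤ n * Real.log n →
    ∀ K : Finset ℕ, (∀ k ∈ K, 1 ≤ k ∧ (k : ℝ) ≤ c * Z / Real.log n) →
      (n : ℝ) / Real.log n ^ C ≤ K.card →
      c * H * max (1 / Real.log (Real.log (Real.log n)) ^ 2)
          (K.card * Real.log n / (Z * Real.log (Real.log (Real.log n)))) ≤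
        (((Ioc s (s + H)).filter (fun h => c * K.card / Real.log n ^ 2 ≤ numDec K h n)).card : ℝ) :=
  Pool.Agent.CSH.finalS C ε hε

end Pool.Agent.Results.MP_04e9b2_nt.CommonShift
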