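import Mathlib
import Pool.Agent.TSK.Cl
import Pool.Agent.TSH.CT3

set_option autoImplicit false

/-!
# MP_04e9b2_nt: consecutive primes in an admissible tuple, and the gap at a prime index

For every `r` there is `T` such that for every finite admissible set `H` with at least `T` elements
every large `n` has `g_0 < ... < g_r` in `H` and `h ≤ (log n)^C` for which at least
`n / (log n)^C` decompositions `n = k + m` satisfy `p_(k+i) = p_k + g_i - g_0` for `i ≤ r` and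
`p_(p_m + 1) = p_(p_m) + h`.
-/

namespace Pool.Agent.Results.MP_04e9b2_nt.ConsecutiveInTuples

open Finset Filter
open Pool.Agent.Helper20.TwinIndex (pr)

open Classical in
theorem result (r : ℕ) : ∃ T : ℕ, ∀ H : Finset ℕ, T ≤ H.card →
    (∀ p : ℕ, p.Prime → ∃ a : ℕ, ∀ x ∈ H, ¬ p ∣ a + x) →
    ∃ C : ℕ, ∀ᶠ n : ℕ in atTop, ∃ g : ℕ → ℕ, (∀ i ≤ r, g i ∈ H) ∧ (∀ i < r, g i < g (i + 1)) ∧
      ∃ h : ℕ, 1 ≤ h ∧ (h : ℝ) ≤ Real.log n ^ C ∧
      (n : ℝ) / Real.log n ^ C ≤ (((Icc 1 (n - 1)).filter (fun k =>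
        (∀ i ≤ r, pr (k + i) + g 0 = pr k + g i) ∧
          pr (pr (n - k) + 1) = pr (pr (n - k)) + h)).card : ℝ) := by
  obtain ⟨T, hT⟩ := Pool.Agent.TSK.cluster r
  refine ⟨T, fun H hH hAdm => ?_⟩
  obtain ⟨C, hC⟩ := hT H hH hAdm (H.sup id) (fun x hx => Finset.le_sup (f := id) hx)
  exact Pool.Agent.TSH.consec_final' r H C hC

end Pool.Agent.Results.MP_04e9b2_nt.ConsecutiveInTuples
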