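import Mathlib
import Pool.Agent.TSH.TQ
import Pool.Agent.TSH.TG
import Pool.Agent.TSH.Shp

set_option autoImplicit false

/-!
# MP_04e9b2_nt: the question with the two shifts replaced by `h₁` and `h₂` in short windows, exact order

Let `L = log log log n`. For every large `n`, every not too small set `K` of indices `k < n` and all windows
below `n (log n)^C` of length at least `n^(1/4+ε)`: for at least `c H₁ max (1/L, |K|/n)` of the `h₁`, at least
`c H₂ / L` of the `h₂` are such that `p_k + h₁` and `p_{p_{n-k}} + h₂` are both prime for at least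
`c |K| / (log n)^2` of the `k ∈ K`; and there is a set `K` of at least `n / log n` indices for which, in all
windows of length at least `log n`, at most `c' H₁ H₂ / L^2` pairs have even one such `k`.
-/

namespace Pool.Agent.Results.MP_04e9b2_nt.TwoShiftsSharp

open Finset Filter Pool.Agent.TSH
open Pool.Agent.Helper20.TwinIndex (pr)

open Classical in
theorem result (ε : ℝ) (hε : 0 < ε) (C : ℕ) :
    ∃ c c' : ℝ, 0 < c ∧ 0 < c' ∧ ∀ᶠ n : ℕ in atTop,
      (∀ K : Finset ℕ, (∀ k ∈ K, 1 ≤ k ∧ k < n) →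
        (n : ℝ) / Real.log n ^ C ≤ K.card → ∀ M₁ H₁ M₂ H₂ : ℕ,
        (n : ℝ) ^ (1 / 4 + ε) ≤ H₁ → (M₁ : ℝ) + H₁ ≤ n * Real.log n ^ C →
        (n : ℝ) ^ (1 / 4 + ε) ≤ H₂ → (M₂ : ℝ) + H₂ ≤ n * Real.log n ^ C →
        c * H₁ * max (1 / Real.log (Real.log (Real.log n))) (K.card / n) ≤
          (((Ioc M₁ (M₁ + H₁)).filter (fun h₁ => c * H₂ / Real.log (Real.log (Real.log n)) ≤
            (((Ioc M₂ (M₂ + H₂)).filter (fun h₂ => c * K.card / Real.log n ^ 2 ≤
              ((K.filter (fun k => (pr k + h₁).Prime ∧ (pr (pr (n - k)) + h₂).Prime)).card : ℝ))).card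
              : ℝ))).card : ℝ)) ∧
      (∃ K : Finset ℕ, (∀ k ∈ K, 1 ≤ k ∧ k < n) ∧ (n : ℝ) / Real.log n ≤ K.card ∧
        ∀ M₁ H₁ M₂ H₂ : ℕ, Real.log n ≤ H₁ → Real.log n ≤ H₂ →
          (((Ioc M₁ (M₁ + H₁) ×ˢ Ioc M₂ (M₂ + H₂)).filter (fun h => ∃ k ∈ K,
            (pr k + h.1).Prime ∧ (pr (pr (n - k)) + h.2).Prime)).card : ℝ) ≤
            c' * H₁ * H₂ / Real.log (Real.log (Real.log n)) ^ 2) := by
  obtain ⟨c, hc, h1⟩ := two_shiftsQ si_gap ε hε C C
  obtain ⟨c', hc', h2⟩ := sharp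
  refine ⟨c, c', hc, hc', ?_⟩
  filter_upwards [h1, h2] with n h3 h4
  exact ⟨h3, h4⟩

end Pool.Agent.Results.MP_04e9b2_nt.TwoShiftsSharp
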